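import Pool.Agent.Helper35_WHM.Main

/-!
# MP_8184a0_lc, Q1 (affirmative answer)

For every rank `n`, Whitehead's automorphism problem for the free group of rank `n` is in NP.

The definitions used in the statement are in `Pool/Agent/Helper32_HCK/Defs.lean` (decision
problems, the class NP in terms of Mathlib's `Turing.TM2ComputableInPolyTime`) and
`Pool/Agent/Helper35_WH/Defs.lean` (`FG`, `Lt`, `encodePair`, `whiteheadProblem`).
-/

namespace Pool.Agent.Results.MP_8184a0_lc.InNP

/-- **Q1 of MP_8184a0_lc, answered affirmatively.** The automorphism problem for `F_n` is in NP. -/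
theorem result (n : ℕ) :
    Pool.Agent.Helper32_HCK.InNP (Pool.Agent.Helper35_WH.whiteheadProblem n) :=
  Pool.Agent.Helper35_WH.final n

end Pool.Agent.Results.MP_8184a0_lc.InNP
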